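import Mathlib

/-!
# An Euler operator argument: derivations dual to generators of the cotangent space

Abstract lemmas for part S1a of swarm NS (helper58).
-/

set_option autoImplicit false

open Finset

namespace Pool.Agent.Helper49.NS

section Euler

variable {P : Type*} [CommRing P] [Algebra ℂ P]

/-- The Euler operator `∑ b_i D_i`. -/
noncomputable def theta {N : ℕ} (D : Fin N → Derivation ℂ P P) (b : Fin N → P) (x : P) : P :=
  ∑ i, b i * D i x

variable {N : ℕ} (D : Fin N → Derivation ℂ P P) (b : Fin N → P)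

lemma theta_zero : theta D b 0 = 0 := by simp [theta]

lemma theta_add (x y : P) : theta D b (x + y) = theta D b x + theta D b y := by
  simp [theta, mul_add, Finset.sum_add_distrib]

lemma theta_mul (x y : P) : theta D b (x * y) = x * theta D b y + y * theta D b x := by
  simp only [theta, Derivation.leibniz, smul_eq_mul, Finset.mul_sum]
  rw [← Finset.sum_add_distrib]
  exact Finset.sum_congr rfl fun i _ => by ring

variable (m I J : Ideal P)

lemma theta_mem (hb : ∀ k, b k ∈ m) (x : P) : theta D b x ∈ m :=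
  Ideal.sum_mem _ fun i _ => Ideal.mul_mem_right _ _ (hb i)

lemma theta_mem' (hDJ : ∀ i, ∀ x ∈ J, D i x ∈ J) {x : P} (hx : x ∈ J) : theta D b x ∈ J :=
  Ideal.sum_mem _ fun i _ => Ideal.mul_mem_left _ _ (hDJ i x hx)

lemma theta_one_aux (e : P) (hIm : I ≤ m) (hb : ∀ k, b k ∈ m)
    (hDJ : ∀ i, ∀ x ∈ J, D i x ∈ J)
    (hDb : ∀ i k, D i (b k) - (if i = k then e else 0) ∈ I)
    (hgen : m ≤ Ideal.span (Set.range b) ⊔ J ⊔ m ^ 2) {v : P} (hv : v ∈ m) :
    theta D b v - e * v ∈ m ^ 2 ⊔ J := by
  have hspan : Ideal.span (Set.range b) ≤ m := by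
    rw [Ideal.span_le]; rintro _ ⟨k, rfl⟩; exact hb k
  have h1 : ∀ s ∈ Ideal.span (Set.range b), theta D b s - e * s ∈ m ^ 2 ⊔ J := by
    intro s hs
    induction hs using Submodule.span_induction with
    | mem x hx =>
      obtain ⟨k, rfl⟩ := hx
      have : theta D b (b k) - e * b k
          = ∑ i, b i * (D i (b k) - (if i = k then e else 0)) := by
        simp only [mul_sub, Finset.sum_sub_distrib, theta]
        congr 1
        rw [Finset.sum_eq_single k]
        · simp [mul_comm]
        · intro i _ hi; simp [hi]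
        · intro h; exact absurd (Finset.mem_univ _) h
      rw [this]
      refine Submodule.mem_sup_left (Ideal.sum_mem _ fun i _ => ?_)
      rw [pow_two]
      exact Ideal.mul_mem_mul (hb i) (hIm (hDb i k))
    | zero => simp [theta_zero]
    | add x y hx hy ihx ihy =>
      have : theta D b (x + y) - e * (x + y)
          = (theta D b x - e * x) + (theta D b y - e * y) := by
        rw [theta_add]; ring
      rw [this]; exact Ideal.add_mem _ ihx ihy
    | smul c x hx ih =>
      have : theta D b (c • x) - e * (c • x)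
          = c * (theta D b x - e * x) + x * theta D b c := by
        rw [smul_eq_mul, theta_mul]; ring
      rw [this]
      refine Ideal.add_mem _ (Ideal.mul_mem_left _ _ ih) (Submodule.mem_sup_left ?_)
      rw [pow_two]
      exact Ideal.mul_mem_mul (hspan hx) (theta_mem D b m hb c)
  have h2 : ∀ q ∈ m ^ 2, theta D b q - e * q ∈ m ^ 2 ⊔ J := by
    intro q hq
    rw [pow_two] at hq
    refine Submodule.mul_induction_on hq ?_ ?_
    · intro x hx y hy
      rw [theta_mul]
      refine Submodule.mem_sup_left ?_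
      rw [pow_two]
      refine Ideal.sub_mem _ (Ideal.add_mem _ ?_ ?_) ?_
      · exact Ideal.mul_mem_mul hx (theta_mem D b m hb y)
      · exact Ideal.mul_mem_mul hy (theta_mem D b m hb x)
      · exact Ideal.mul_mem_left _ _ (Ideal.mul_mem_mul hx hy)
    · intro x y hx hy
      have : theta D b (x + y) - e * (x + y)
          = (theta D b x - e * x) + (theta D b y - e * y) := by
        rw [theta_add]; ring
      rw [this]; exact Ideal.add_mem _ hx hy
  obtain ⟨s', hs', q, hq, rfl⟩ := Submodule.mem_sup.mp (hgen hv)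
  obtain ⟨s, hs, j, hj, rfl⟩ := Submodule.mem_sup.mp hs'
  have : theta D b (s + j + q) - e * (s + j + q)
      = (theta D b s - e * s) + (theta D b j - e * j) + (theta D b q - e * q) := by
    rw [theta_add, theta_add]; ring
  rw [this]
  refine Ideal.add_mem _ (Ideal.add_mem _ (h1 s hs) (Submodule.mem_sup_right ?_)) (h2 q hq)
  exact Ideal.sub_mem _ (theta_mem' D b J hDJ hj) (Ideal.mul_mem_left _ _ hj)

lemma theta_pow_aux (e : P) (hb : ∀ k, b k ∈ m)
    (h1 : ∀ v ∈ m, theta D b v - e * v ∈ m ^ 2 ⊔ J) (r : ℕ) :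
    ∀ v ∈ m ^ (r + 1), theta D b v - ((r + 1 : ℕ) : P) * (e * v) ∈ m ^ (r + 2) ⊔ J := by
  induction r with
  | zero =>
    intro v hv
    have := h1 v (by simpa using hv)
    simpa using this
  | succ r ih =>
    intro v hv
    rw [pow_succ] at hv
    refine Submodule.mul_induction_on hv ?_ ?_
    · intro x hx y hy
      have : theta D b (x * y) - ((r + 1 + 1 : ℕ) : P) * (e * (x * y))
          = x * (theta D b y - e * y) + y * (theta D b x - ((r + 1 : ℕ) : P) * (e * x)) := by
        rw [theta_mul]; push_cast; ring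
      rw [this]
      refine Ideal.add_mem _ ?_ ?_
      · have h := Ideal.mul_mem_mul hx (h1 y hy)
        rw [Ideal.mul_sup, ← pow_add] at h
        have h' : m ^ (r + 1 + 2) ⊔ m ^ (r + 1) * J ≤ m ^ (r + 1 + 2) ⊔ J :=
          sup_le_sup le_rfl Ideal.mul_le_right
        exact h' h
      · have h := Ideal.mul_mem_mul hy (ih x hx)
        rw [Ideal.mul_sup, ← pow_succ'] at h
        have h' : m ^ (r + 2 + 1) ⊔ m * J ≤ m ^ (r + 1 + 2) ⊔ J :=
          sup_le_sup (le_of_eq (by ring_nf)) Ideal.mul_le_right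
        exact h' h
    · intro x y hx hy
      have : theta D b (x + y) - ((r + 1 + 1 : ℕ) : P) * (e * (x + y))
          = (theta D b x - ((r + 1 + 1 : ℕ) : P) * (e * x))
            + (theta D b y - ((r + 1 + 1 : ℕ) : P) * (e * y)) := by
        rw [theta_add]; ring
      rw [this]; exact Ideal.add_mem _ hx hy

/-- The ideal `I` is contained in `J + m ^ r` for all `r`. -/
theorem le_pow_sup [m.IsMaximal] (hIm : I ≤ m) (e : P) (he : e ∉ m) (hb : ∀ k, b k ∈ m)
    (hDJ : ∀ i, ∀ x ∈ J, D i x ∈ J) (hDI : ∀ i, ∀ x ∈ I, D i x ∈ I)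
    (hDb : ∀ i k, D i (b k) - (if i = k then e else 0) ∈ I)
    (hgen : m ≤ Ideal.span (Set.range b) ⊔ J ⊔ m ^ 2) (r : ℕ) : I ≤ m ^ (r + 1) ⊔ J := by
  have h1 : ∀ v ∈ m, theta D b v - e * v ∈ m ^ 2 ⊔ J := fun v hv =>
    theta_one_aux D b m I J e hIm hb hDJ hDb hgen hv
  induction r with
  | zero => simpa using le_sup_of_le_left hIm
  | succ r ih =>
    intro g hg
    obtain ⟨v, hv, j, hj, rfl⟩ := Submodule.mem_sup.mp (ih hg)
    have h2 : theta D b (v + j) ∈ m ^ (r + 2) ⊔ J := by
      refine Ideal.sum_mem _ fun i _ => ?_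
      have h := Ideal.mul_mem_mul (hb i) (ih (hDI i _ hg))
      rw [Ideal.mul_sup, ← pow_succ'] at h
      exact (sup_le_sup (le_of_eq (by ring_nf)) Ideal.mul_le_right :
        m ^ (r + 1 + 1) ⊔ m * J ≤ m ^ (r + 2) ⊔ J) h
    have h3 : theta D b v ∈ m ^ (r + 2) ⊔ J := by
      have : theta D b v = theta D b (v + j) - theta D b j := by rw [theta_add]; ring
      rw [this]
      exact Ideal.sub_mem _ h2 (Submodule.mem_sup_right (theta_mem' D b J hDJ hj))
    have h4 : ((r + 1 : ℕ) : P) * (e * v) ∈ m ^ (r + 2) ⊔ J := by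
      have := theta_pow_aux D b m J e hb h1 r v hv
      have h := Ideal.sub_mem _ h3 this
      simpa using h
    obtain ⟨e', i, hi, hei⟩ := Ideal.IsMaximal.exists_inv (inferInstance : m.IsMaximal) he
    have hc : algebraMap ℂ P (((r + 1 : ℕ) : ℂ)⁻¹) * ((r + 1 : ℕ) : P) = 1 := by
      rw [← map_natCast (algebraMap ℂ P), ← map_mul, inv_mul_cancel₀, map_one]
      exact_mod_cast Nat.succ_ne_zero r
    have h5 : v = algebraMap ℂ P (((r + 1 : ℕ) : ℂ)⁻¹) * e' * (((r + 1 : ℕ) : P) * (e * v))
        + i * v := by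
      calc v = (e' * e + i) * v := by rw [hei, one_mul]
        _ = (algebraMap ℂ P (((r + 1 : ℕ) : ℂ)⁻¹) * ((r + 1 : ℕ) : P)) * (e' * e * v)
            + i * v := by rw [hc]; ring
        _ = _ := by ring
    have h6 : v ∈ m ^ (r + 2) ⊔ J := by
      rw [h5]
      refine Ideal.add_mem _ (Ideal.mul_mem_left _ _ h4) (Submodule.mem_sup_left ?_)
      rw [show r + 2 = (r + 1) + 1 from rfl, pow_succ']
      exact Ideal.mul_mem_mul hi hv
    exact Ideal.add_mem _ h6 (Submodule.mem_sup_right hj)

/-- Krull: `I` and `J` agree near `m`. -/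
theorem euler_krull [IsNoetherianRing P] [m.IsMaximal] (hIm : I ≤ m) (e : P)
    (he : e ∉ m) (hb : ∀ k, b k ∈ m)
    (hDJ : ∀ i, ∀ x ∈ J, D i x ∈ J) (hDI : ∀ i, ∀ x ∈ I, D i x ∈ I)
    (hDb : ∀ i k, D i (b k) - (if i = k then e else 0) ∈ I)
    (hgen : m ≤ Ideal.span (Set.range b) ⊔ J ⊔ m ^ 2) : ∃ u, u ∉ m ∧ ∀ x ∈ I, u * x ∈ J := by
  have hle := le_pow_sup D b m I J hIm e he hb hDJ hDI hDb hgen
  have hpt : ∀ x ∈ I, ∃ u, u ∉ m ∧ u * x ∈ J := by
    intro x hx
    have hmem : (Submodule.Quotient.mk x : P ⧸ J) ∈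
        (⨅ i : ℕ, m ^ i • ⊤ : Submodule P (P ⧸ J)) := by
      rw [Submodule.mem_iInf]
      intro i
      cases i with
      | zero => simp
      | succ i =>
        obtain ⟨v, hv, j, hj, rfl⟩ := Submodule.mem_sup.mp (hle i hx)
        have : (Submodule.Quotient.mk (v + j) : P ⧸ J)
            = v • (Submodule.Quotient.mk 1 : P ⧸ J) := by
          rw [← Submodule.Quotient.mk_smul, Submodule.Quotient.eq]
          simpa using hj
        rw [this]
        exact Submodule.smul_mem_smul hv Submodule.mem_top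
    obtain ⟨⟨r, hr⟩, hrx⟩ := (m.mem_iInf_smul_pow_eq_bot_iff _).mp hmem
    refine ⟨1 - r, fun h => ?_, ?_⟩
    · have : (1 : P) ∈ m := by simpa using Ideal.add_mem _ h hr
      exact (Ideal.IsMaximal.ne_top (inferInstance : m.IsMaximal))
        ((Ideal.eq_top_iff_one m).mpr this)
    · have h := hrx
      simp only at h
      rw [← Submodule.Quotient.mk_smul, Submodule.Quotient.eq] at h
      have h' : (1 - r) * x = -(r • x - x) := by simp [smul_eq_mul]; ring
      rw [h']
      exact Submodule.neg_mem _ h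
  obtain ⟨s, hs⟩ := (IsNoetherian.noetherian I : I.FG)
  classical
  have hsI : ∀ x ∈ s, x ∈ I := fun x hx => by rw [← hs]; exact Submodule.subset_span hx
  have hch : ∀ x : P, ∃ u, u ∉ m ∧ (x ∈ I → u * x ∈ J) := by
    intro x
    by_cases hx : x ∈ I
    · obtain ⟨u, hu, hux⟩ := hpt x hx
      exact ⟨u, hu, fun _ => hux⟩
    · exact ⟨1, fun h => (Ideal.IsMaximal.ne_top (inferInstance : m.IsMaximal))
        ((Ideal.eq_top_iff_one m).mpr h), fun h => absurd h hx⟩
  choose u hu hux using hch
  have hprime : m.IsPrime := Ideal.IsMaximal.isPrime inferInstance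
  refine ⟨∏ x ∈ s, u x, ?_, ?_⟩
  · intro h
    obtain ⟨x, hx, hxm⟩ := (Ideal.IsPrime.prod_mem_iff (hp := hprime)).mp h
    exact hu x hxm
  · intro x hx
    rw [← hs] at hx
    induction hx using Submodule.span_induction with
    | mem y hy =>
      rw [← Finset.mul_prod_erase s u hy, mul_right_comm]
      exact Ideal.mul_mem_right _ _ (hux y (hsI y hy))
    | zero => simp
    | add y z _ _ ihy ihz => rw [mul_add]; exact Ideal.add_mem _ ihy ihz
    | smul c y _ ih =>
      rw [smul_eq_mul, mul_left_comm]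
      exact Ideal.mul_mem_left _ _ ih

end Euler

end Pool.Agent.Helper49.NS
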