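import Mathlib

/-!
# A basis of a subspace of `ℂ^M` has a nonzero maximal minor
-/

set_option autoImplicit false

open Finset

namespace Pool.Agent.Helper49.NS

theorem exists_minor {M : ℕ} (W : Submodule ℂ (Fin M → ℂ)) :
    ∃ (c : ℕ) (w : Fin c → Fin M → ℂ) (S : Fin c → Fin M), (∀ j, w j ∈ W) ∧
      W ≤ Submodule.span ℂ (Set.range w) ∧ (Matrix.of fun i j => w j (S i)).det ≠ 0 := by
  classical
  set c := Module.finrank ℂ W with hc
  let bas := Module.finBasis ℂ W
  let w : Fin c → Fin M → ℂ := fun j => (bas j : Fin M → ℂ)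
  have hli : LinearIndependent ℂ w := by
    have := bas.linearIndependent.map' W.subtype (Submodule.ker_subtype W)
    exact this
  have hspan : W ≤ Submodule.span ℂ (Set.range w) := by
    intro x hx
    have h := bas.mem_span ⟨x, hx⟩
    have h2 := Submodule.mem_map_of_mem (f := W.subtype) h
    rw [Submodule.map_span, ← Set.range_comp] at h2
    exact h2
  let A : Matrix (Fin c) (Fin M) ℂ := Matrix.of w
  have hrk : A.rank = c := by
    have h := LinearIndependent.rank_matrix (M := A) hli
    simpa using h
  let v : Fin M → (Fin c → ℂ) := fun l j => w j l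
  have htop : Submodule.span ℂ (Set.range v) = ⊤ := by
    apply Submodule.eq_top_of_finrank_eq
    rw [Matrix.rank_eq_finrank_span_cols] at hrk
    have : Set.range v = Set.range A.col := rfl
    rw [this, hrk]; simp
  obtain ⟨κ, a, ha, hsp, hlin⟩ := exists_linearIndependent' ℂ v
  rw [htop] at hsp
  let B : Module.Basis κ ℂ (Fin c → ℂ) := Module.Basis.mk hlin (by rw [hsp])
  haveI : Finite κ := Finite.of_injective a ha
  haveI : Fintype κ := Fintype.ofFinite κ
  have hcard : Fintype.card κ = c := by
    have := Module.finrank_eq_card_basis B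
    simpa using this.symm
  let e : Fin c ≃ κ := (Fintype.equivFinOfCardEq hcard).symm
  refine ⟨c, w, fun i => a (e i), fun j => (bas j).2, hspan, ?_⟩
  have hrow : LinearIndependent ℂ (fun i : Fin c => v (a (e i))) :=
    hlin.comp e e.injective
  have hu : IsUnit (Matrix.of fun i j => w j (a (e i))) :=
    Matrix.linearIndependent_rows_iff_isUnit.mp hrow
  exact ((Matrix.isUnit_iff_isUnit_det _).mp hu).ne_zero

end Pool.Agent.Helper49.NS
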