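import Pool.Agent.Helper49.NS.Euler
import Pool.Agent.Helper49.NS.Minor

/-!
# A finitely generated algebra with enough derivations at a point is a local complete intersection
-/

set_option autoImplicit false

open Finset

namespace Pool.Agent.Helper49.NS

lemma der_sum_apply {P Q : Type*} [CommRing P] [Algebra ℂ P] [AddCommGroup Q] [Module P Q]
    [Module ℂ Q] {ι : Type*} (s : Finset ι) (F : ι → Derivation ℂ P Q) (x : P) :
    (∑ i ∈ s, F i) x = ∑ i ∈ s, F i x := by
  classical
  induction s using Finset.induction_on with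
  | empty => simp
  | insert a s ha ih => rw [Finset.sum_insert ha, Finset.sum_insert ha, Derivation.add_apply, ih]

/-- Taylor expansion of order one at a point. -/
lemma taylor_one {M : ℕ} (q : MvPolynomial (Fin M) ℂ →ₐ[ℂ] ℂ) (f : MvPolynomial (Fin M) ℂ) :
    f - MvPolynomial.C (q f) - ∑ l, MvPolynomial.C (q (MvPolynomial.pderiv l f)) *
      (MvPolynomial.X l - MvPolynomial.C (q (MvPolynomial.X l))) ∈ (RingHom.ker q) ^ 2 := by
  have hq : ∀ z : ℂ, q (MvPolynomial.C z) = z := fun z => by
    exact q.commutes z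
  induction f using MvPolynomial.induction_on with
  | C a => simp [hq]
  | add f g hf hg =>
    have h := Ideal.add_mem _ hf hg
    convert h using 1
    simp only [map_add, add_mul, Finset.sum_add_distrib]
    ring
  | mul_X f n hf =>
    have h1 : (MvPolynomial.X n - MvPolynomial.C (q (MvPolynomial.X n))) *
        (f - MvPolynomial.C (q f)) ∈ (RingHom.ker q) ^ 2 := by
      rw [pow_two]
      refine Ideal.mul_mem_mul ?_ ?_
      · rw [RingHom.mem_ker, map_sub, hq, sub_self]
      · rw [RingHom.mem_ker, map_sub, hq, sub_self]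
    have h2 := Ideal.add_mem _ h1 (Ideal.mul_mem_left _ (MvPolynomial.C (q (MvPolynomial.X n))) hf)
    convert h2 using 1
    have h3 : ∀ l, MvPolynomial.C (q (MvPolynomial.pderiv l (f * MvPolynomial.X n))) *
        (MvPolynomial.X l - MvPolynomial.C (q (MvPolynomial.X l))) =
        MvPolynomial.C (q (MvPolynomial.X n)) * (MvPolynomial.C (q (MvPolynomial.pderiv l f)) *
          (MvPolynomial.X l - MvPolynomial.C (q (MvPolynomial.X l)))) +
        (if l = n then MvPolynomial.C (q f) *
          (MvPolynomial.X n - MvPolynomial.C (q (MvPolynomial.X n))) else 0) := by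
      intro l
      rw [Derivation.leibniz, MvPolynomial.pderiv_X, smul_eq_mul, smul_eq_mul, map_add, map_mul,
        map_mul, map_add, map_mul, map_mul]
      by_cases hl : l = n
      · subst hl; simp; ring
      · simp [hl, Ne.symm hl]; ring
    simp only [h3]
    rw [Finset.sum_add_distrib, Finset.sum_ite_eq' Finset.univ n, if_pos (Finset.mem_univ _),
      ← Finset.mul_sum, map_mul, map_mul]
    ring

variable {R : Type} [CommRing R] [Algebra ℂ R]

/-- Local complete intersections from derivations. -/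
theorem local_ci_core {M : ℕ} (π : MvPolynomial (Fin M) ℂ →ₐ[ℂ] R)
    (hπ : Function.Surjective π) (p : R →ₐ[ℂ] ℂ) {N : ℕ} (b : Fin N → R)
    (hb : ∀ r : R, ∃ (c : ℂ) (l : Fin N → ℂ),
        r - ∑ j, l j • b j - algebraMap ℂ R c ∈ (RingHom.ker p) ^ 2)
    (E : Fin N → Derivation ℂ R R) (Δ : R) (hΔ : p Δ ≠ 0)
    (hE : ∀ i k, E i (b k) = if i = k then Δ else 0) :
    ∃ (c : ℕ) (g : Fin c → MvPolynomial (Fin M) ℂ) (S : Fin c → Fin M)
      (u : MvPolynomial (Fin M) ℂ), (∀ j, π (g j) = 0) ∧
      p (π (Matrix.of fun i j => MvPolynomial.pderiv (S i) (g j)).det) ≠ 0 ∧ p (π u) ≠ 0 ∧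
      ∀ h, π h = 0 → u * h ∈ Ideal.span (Set.range g) := by
  classical
  set q0 : MvPolynomial (Fin M) ℂ →ₐ[ℂ] ℂ := p.comp π with hq0
  have hq0a : ∀ x, q0 x = p (π x) := fun x => rfl
  set m : Ideal (MvPolynomial (Fin M) ℂ) := RingHom.ker q0 with hm
  have hsurj : Function.Surjective q0 := fun z => ⟨algebraMap ℂ _ z, by simp⟩
  have hmax : m.IsMaximal := RingHom.ker_isMaximal_of_surjective q0 hsurj
  set I : Ideal (MvPolynomial (Fin M) ℂ) := RingHom.ker π with hI
  have hIm : I ≤ m := by
    intro x hx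
    rw [hm, RingHom.mem_ker, hq0a]
    rw [hI, RingHom.mem_ker] at hx
    rw [hx, map_zero]
  -- gradients
  let grad : MvPolynomial (Fin M) ℂ →ₗ[ℂ] (Fin M → ℂ) :=
    LinearMap.pi fun l => q0.toLinearMap.comp (MvPolynomial.pderiv l).toLinearMap
  have hgrad : ∀ f l, grad f l = q0 (MvPolynomial.pderiv l f) := fun f l => rfl
  obtain ⟨c, w, S, hw, hWspan, hdet⟩ :=
    exists_minor ((LinearMap.ker π.toLinearMap).map grad)
  have hw' : ∀ j, ∃ g, π g = 0 ∧ grad g = w j := by
    intro j
    obtain ⟨g, hg, hgw⟩ := hw j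
    exact ⟨g, hg, hgw⟩
  choose g hg hgw using hw'
  set J : Ideal (MvPolynomial (Fin M) ℂ) := Ideal.span (Set.range g) with hJ
  have hJI : J ≤ I := by
    rw [hJ, Ideal.span_le]; rintro _ ⟨j, rfl⟩; exact hg j
  have hIJ : I ≤ J ⊔ m ^ 2 := by
    intro x hx
    have h1 : grad x ∈ Submodule.span ℂ (Set.range w) :=
      hWspan (Submodule.mem_map_of_mem (f := grad) (show x ∈ LinearMap.ker π.toLinearMap from hx))
    obtain ⟨a, ha⟩ := (Submodule.mem_span_range_iff_exists_fun ℂ).mp h1
    have h2 : x - ∑ j, a j • g j ∈ m ^ 2 := by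
      have h := taylor_one q0 (x - ∑ j, a j • g j)
      have h3 : q0 (x - ∑ j, a j • g j) = 0 := by
        rw [hq0a, map_sub, map_sum]
        have : π x = 0 := hx
        simp [this, hg]
      have h4 : ∀ l, q0 (MvPolynomial.pderiv l (x - ∑ j, a j • g j)) = 0 := by
        intro l
        rw [← hgrad, map_sub, map_sum]
        have h5 : grad x = ∑ j, a j • grad (g j) := by
          rw [← ha]; exact Finset.sum_congr rfl fun j _ => by rw [hgw]
        rw [h5]
        simp
      rw [h3] at h
      simp only [h4, map_zero, zero_mul, Finset.sum_const_zero, sub_zero] at h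
      exact h
    have h3 : x = ∑ j, a j • g j + (x - ∑ j, a j • g j) := by ring
    rw [h3]
    refine Submodule.add_mem_sup (Ideal.sum_mem _ fun j _ => ?_) h2
    rw [MvPolynomial.smul_eq_C_mul]
    exact Ideal.mul_mem_left _ _ (Ideal.subset_span ⟨j, rfl⟩)
  -- lifts of the derivations
  have hd : ∀ i l, ∃ d, π d = E i (π (MvPolynomial.X l)) := fun i l => hπ _
  choose d hd using hd
  let D' : Fin N → Derivation ℂ (MvPolynomial (Fin M) ℂ) (MvPolynomial (Fin M) ℂ) :=
    fun i => MvPolynomial.mkDerivation ℂ (d i)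
  have hD' : ∀ i f, π (D' i f) = E i (π f) := by
    intro i f
    induction f using MvPolynomial.induction_on with
    | C a =>
      have h1 : D' i (MvPolynomial.C a) = 0 := by
        rw [← MvPolynomial.algebraMap_eq]; exact (D' i).map_algebraMap a
      have h2 : π (MvPolynomial.C a) = algebraMap ℂ R a := π.commutes a
      rw [h1, h2, map_zero, Derivation.map_algebraMap]
    | add f g hf hg => rw [map_add, map_add, hf, hg, map_add, map_add]
    | mul_X f n hf =>
      have h1 : D' i (MvPolynomial.X n) = d i n := MvPolynomial.mkDerivation_X _ _ _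
      rw [Derivation.leibniz, map_mul, Derivation.leibniz, smul_eq_mul, smul_eq_mul, smul_eq_mul,
        smul_eq_mul, map_add, map_mul, map_mul, hf, h1, hd]
  set Mx : Matrix (Fin c) (Fin c) (MvPolynomial (Fin M) ℂ) :=
    Matrix.of fun i j => MvPolynomial.pderiv (S i) (g j) with hMx
  set δ := Mx.det with hδ
  have hqδ : q0 δ ≠ 0 := by
    have h1 : q0 δ = (Matrix.of fun i j => w j (S i)).det := by
      rw [hδ, AlgHom.map_det]
      congr 1
      ext i j
      simp only [AlgHom.mapMatrix_apply, Matrix.map_apply, hMx, Matrix.of_apply]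
      rw [← hgrad, hgw]
    rw [h1]; exact hdet
  let e : Fin N → Fin c → MvPolynomial (Fin M) ℂ := fun i l => ∑ j, D' i (g j) * Mx.adjugate j l
  have heI : ∀ i l, e i l ∈ I := by
    intro i l
    refine Ideal.sum_mem _ fun j _ => Ideal.mul_mem_right _ _ ?_
    rw [hI, RingHom.mem_ker, hD', hg, map_zero]
  let D : Fin N → Derivation ℂ (MvPolynomial (Fin M) ℂ) (MvPolynomial (Fin M) ℂ) :=
    fun i => δ • D' i - ∑ l, e i l • MvPolynomial.pderiv (S l)
  have hDa : ∀ i x, D i x = δ * D' i x - ∑ l, e i l * MvPolynomial.pderiv (S l) x := by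
    intro i x
    change (δ • D' i - ∑ l, e i l • MvPolynomial.pderiv (S l) :
      Derivation ℂ (MvPolynomial (Fin M) ℂ) (MvPolynomial (Fin M) ℂ)) x = _
    rw [Derivation.sub_apply, der_sum_apply, Derivation.smul_apply, smul_eq_mul]
    simp only [Derivation.smul_apply, smul_eq_mul]
  have hDg : ∀ i j, D i (g j) = 0 := by
    intro i j
    rw [hDa]
    have h1 : ∑ l, e i l * MvPolynomial.pderiv (S l) (g j) = δ * D' i (g j) := by
      have h2 : ∀ j', ∑ l, Mx.adjugate j' l * Mx l j = if j' = j then δ else 0 := by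
        intro j'
        have h4 := congrFun (congrFun (Matrix.adjugate_mul Mx) j') j
        rw [Matrix.mul_apply, Matrix.smul_apply, Matrix.one_apply] at h4
        rw [h4]
        split_ifs <;> simp [hδ]
      calc ∑ l, e i l * MvPolynomial.pderiv (S l) (g j)
          = ∑ l, ∑ j', D' i (g j') * (Mx.adjugate j' l * Mx l j) := by
            refine Finset.sum_congr rfl fun l _ => ?_
            rw [Finset.sum_mul]
            refine Finset.sum_congr rfl fun j' _ => ?_
            rw [hMx]; simp only [Matrix.of_apply]; ring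
        _ = ∑ j', D' i (g j') * ∑ l, Mx.adjugate j' l * Mx l j := by
            rw [Finset.sum_comm]
            exact Finset.sum_congr rfl fun j' _ => by rw [Finset.mul_sum]
        _ = δ * D' i (g j) := by
            simp only [h2, mul_ite, mul_zero]
            rw [Finset.sum_ite_eq' Finset.univ j, if_pos (Finset.mem_univ _), mul_comm]
    rw [h1, sub_self]
  have hDJ : ∀ i, ∀ x ∈ J, D i x ∈ J := by
    intro i x hx
    induction hx using Submodule.span_induction with
    | mem y hy => obtain ⟨j, rfl⟩ := hy; rw [hDg]; exact Ideal.zero_mem _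
    | zero => rw [map_zero]; exact Ideal.zero_mem _
    | add y z _ _ hy hz => rw [map_add]; exact Ideal.add_mem _ hy hz
    | smul a y hy ih =>
      rw [smul_eq_mul, Derivation.leibniz, smul_eq_mul, smul_eq_mul]
      exact Ideal.add_mem _ (Ideal.mul_mem_left _ _ ih) (Ideal.mul_mem_right _ _ hy)
  have hDI : ∀ i, ∀ x ∈ I, D i x ∈ I := by
    intro i x hx
    rw [hDa]
    refine Ideal.sub_mem _ (Ideal.mul_mem_left _ _ ?_)
      (Ideal.sum_mem _ fun l _ => Ideal.mul_mem_right _ _ (heI i l))
    rw [hI, RingHom.mem_ker, hD']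
    have : π x = 0 := hx
    rw [this, map_zero]
  have hbl : ∀ k, ∃ y, π y = b k - algebraMap ℂ R (p (b k)) := fun k => hπ _
  choose bh hbh using hbl
  have hbm : ∀ k, bh k ∈ m := by
    intro k
    rw [hm, RingHom.mem_ker, hq0a, hbh, map_sub, AlgHom.commutes]
    simp
  obtain ⟨Δh, hΔh⟩ := hπ Δ
  have he : δ * Δh ∉ m := by
    rw [hm, RingHom.mem_ker, map_mul]
    intro h
    rcases mul_eq_zero.mp h with h | h
    · exact hqδ h
    · rw [hq0a, hΔh] at h; exact hΔ h
  have hDb : ∀ i k, D i (bh k) - (if i = k then δ * Δh else 0) ∈ I := by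
    intro i k
    have h1 : D i (bh k) - (if i = k then δ * Δh else 0)
        = (δ * D' i (bh k) - (if i = k then δ * Δh else 0))
          - ∑ l, e i l * MvPolynomial.pderiv (S l) (bh k) := by rw [hDa]; ring
    rw [h1]
    refine Ideal.sub_mem _ ?_ (Ideal.sum_mem _ fun l _ => Ideal.mul_mem_right _ _ (heI i l))
    rw [hI, RingHom.mem_ker, map_sub, map_mul, hD', hbh, map_sub, Derivation.map_algebraMap,
      sub_zero, hE]
    split_ifs
    · rw [map_mul, hΔh, sub_self]
    · simp
  have hgen : m ≤ Ideal.span (Set.range bh) ⊔ J ⊔ m ^ 2 := by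
    intro v hv
    obtain ⟨c0, l, h⟩ := hb (π v)
    have hpv : p (π v) = 0 := hv
    have hc0 : c0 = - ∑ j, l j * p (b j) := by
      have h1 : (RingHom.ker p) ^ 2 ≤ RingHom.ker p := Ideal.pow_le_self (by norm_num)
      have h2 := h1 h
      rw [RingHom.mem_ker, map_sub, map_sub, hpv, map_sum, AlgHom.commutes] at h2
      simp only [map_smul, smul_eq_mul, Algebra.algebraMap_self, RingHom.id_apply] at h2
      linear_combination -h2
    have h3 : π (v - ∑ j, l j • bh j) ∈ (RingHom.ker p) ^ 2 := by
      convert h using 1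
      rw [map_sub, map_sum, hc0]
      simp only [map_smul, hbh, smul_sub, Finset.sum_sub_distrib, map_neg, map_sum, map_mul]
      simp only [Algebra.smul_def]
      ring
    have h4 : (RingHom.ker p) ^ 2 = Ideal.map π (m ^ 2) := by
      rw [Ideal.map_pow]
      congr 1
      have : m = Ideal.comap π (RingHom.ker p) := by
        ext x; rw [Ideal.mem_comap, hm, RingHom.mem_ker, RingHom.mem_ker]; rfl
      rw [this, Ideal.map_comap_of_surjective _ hπ]
    rw [h4] at h3
    obtain ⟨z, hz, hzv⟩ := (Ideal.mem_map_iff_of_surjective π hπ).mp h3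
    have h5 : (v - ∑ j, l j • bh j) - z ∈ J ⊔ m ^ 2 := by
      apply hIJ
      rw [hI, RingHom.mem_ker, map_sub, hzv, sub_self]
    have h6 : v = (∑ j, l j • bh j) + (((v - ∑ j, l j • bh j) - z) + z) := by ring
    rw [h6, sup_assoc]
    refine Submodule.add_mem_sup (Ideal.sum_mem _ fun j _ => ?_)
      (Ideal.add_mem _ h5 (Submodule.mem_sup_right hz))
    rw [MvPolynomial.smul_eq_C_mul]
    exact Ideal.mul_mem_left _ _ (Ideal.subset_span ⟨j, rfl⟩)
  obtain ⟨u, hu, huJ⟩ := euler_krull D bh m I J hIm (δ * Δh) he hbm hDJ hDI hDb hgen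
  refine ⟨c, g, S, u, hg, hqδ, ?_, fun h hh => huJ h hh⟩
  intro h
  exact hu h

end Pool.Agent.Helper49.NS
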