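import Pool.Agent.Helper58.NS.Def
import Pool.Agent.Helper49.NS.LocalCI

/-!
# S1a. Local structure of the ideal of relations at a point off the vertex
-/

set_option autoImplicit false
set_option linter.unusedSectionVars false

open Finset

namespace Pool.Agent.Helper49.NS

open Pool.Agent.Helper766_CF Pool.Agent.Helper766_CG Pool.Agent.Helper766_CH
open Pool.Agent.Helper58.CS Pool.Agent.Helper58.OP Pool.Agent.Helper58.SH Pool.Agent.Helper58.BG
open Pool.Agent.Helper58.LC Pool.Agent.Helper58.NS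

variable {R : Type} [CommRing R] [Algebra ℂ R] {𝒜 : ℕ → Submodule ℂ R} [GradedAlgebra 𝒜]
  {br : R →ₗ[ℂ] R →ₗ[ℂ] R} {k : Type} [Field k] [Algebra ℂ k]

/-- S1a. Local structure of the ideal of relations at a point off the vertex. -/
theorem local_ci (C : Core 𝒜 br) {M : ℕ} (π : MvPolynomial (Fin M) ℂ →ₐ[ℂ] R)
    (hπ : Function.Surjective π) {p : R →ₐ[ℂ] ℂ} (hp : ¬ IsVertex 𝒜 p) :
    ∃ (c : ℕ) (g : Fin c → MvPolynomial (Fin M) ℂ) (S : Fin c → Fin M)
      (u : MvPolynomial (Fin M) ℂ), (∀ j, π (g j) = 0) ∧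
      p (π (Matrix.of fun i j => MvPolynomial.pderiv (S i) (g j)).det) ≠ 0 ∧ p (π u) ≠ 0 ∧
      ∀ h, π h = 0 → u * h ∈ Ideal.span (Set.range g) := by
  obtain ⟨N, b, hb, hdet⟩ := exists_frame C hp
  set G : Matrix (Fin N) (Fin N) R := Matrix.of fun i j => br (b i) (b j) with hG
  refine local_ci_core π hπ p b hb
    (fun i => ∑ j, G.adjugate i j • adD C.poisson (b j)) G.det hdet ?_
  intro i k
  rw [der_sum_apply]
  have h4 := congrFun (congrFun (Matrix.adjugate_mul G) i) k
  rw [Matrix.mul_apply, Matrix.smul_apply, Matrix.one_apply] at h4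
  simp only [Derivation.smul_apply, adD_apply, smul_eq_mul]
  have h5 : ∑ j, G.adjugate i j * br (b j) (b k) = ∑ j, G.adjugate i j * G j k := rfl
  rw [h5, h4]
  split_ifs <;> simp

end Pool.Agent.Helper49.NS
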